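import Mathlib
import Pool.Agent.Addr.Basic

/-!
MP_38fdd6_co, partial result: the addressing number of the Johnson graph `J(n,m)` is at most
`2 n - 3`, for all `2 ≤ m ≤ n / 2`.
-/

set_option autoImplicit false

namespace Pool.Agent.Results.MP_38fdd6_co.LinearUpper

open Pool.Agent.Addr Finset

variable {n m : ℕ}

/-- The number of elements of `A` below `x`. -/
def below (A : Finset (Fin n)) (x : Fin n) : ℕ := (A.filter fun y => y < x).card

/-- In a finite set of `k` elements of a linear order, `⌈k/2⌉` elements have an even number of
elements of the set below them. -/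
lemma card_even_below (S : Finset (Fin n)) :
    (S.filter fun x => Even (below S x)).card = (S.card + 1) / 2 := by
  induction S using Finset.induction_on_max with
  | empty => simp
  | insert a s hlt ih =>
    have has : a ∉ s := fun h => lt_irrefl _ (hlt a h)
    have h1 : ∀ x ∈ s, below (insert a s) x = below s x := by
      intro x hx
      unfold below
      rw [Finset.filter_insert, if_neg (not_lt.mpr (hlt x hx).le)]
    have h2 : below (insert a s) a = s.card := by
      unfold below
      rw [Finset.filter_insert, if_neg (lt_irrefl a), Finset.filter_true_of_mem hlt]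
    have h3 : (s.filter fun x => Even (below (insert a s) x)) =
        s.filter fun x => Even (below s x) := by
      apply Finset.filter_congr
      intro x hx
      rw [h1 x hx]
    rw [Finset.filter_insert, h2, h3, Finset.card_insert_of_notMem has]
    split_ifs with h
    · rw [Finset.card_insert_of_notMem (fun hh => has (Finset.mem_filter.mp hh).1), ih]
      obtain ⟨k, hk⟩ := h
      omega
    · rw [ih]
      rw [Nat.not_even_iff_odd] at h
      obtain ⟨k, hk⟩ := h
      omega

lemma below_add (A B : Finset (Fin n)) (x : Fin n) :
    below A x + below B x = below (symmDiff A B) x + 2 * below (A ∩ B) x := by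
  unfold below
  have hA : (A.filter fun y => y < x).card =
      ((A \ B).filter fun y => y < x).card + ((A ∩ B).filter fun y => y < x).card := by
    rw [← Finset.card_union_of_disjoint, ← Finset.filter_union, Finset.sdiff_union_inter]
    apply Finset.disjoint_filter_filter
    exact Finset.disjoint_sdiff_inter A B
  have hB : (B.filter fun y => y < x).card =
      ((B \ A).filter fun y => y < x).card + ((A ∩ B).filter fun y => y < x).card := by
    rw [Finset.inter_comm, ← Finset.card_union_of_disjoint, ← Finset.filter_union,
      Finset.sdiff_union_inter]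
    apply Finset.disjoint_filter_filter
    exact Finset.disjoint_sdiff_inter B A
  have hS : ((symmDiff A B).filter fun y => y < x).card =
      ((A \ B).filter fun y => y < x).card + ((B \ A).filter fun y => y < x).card := by
    rw [symmDiff_def, Finset.sup_eq_union, ← Finset.card_union_of_disjoint, ← Finset.filter_union]
    apply Finset.disjoint_filter_filter
    exact disjoint_sdiff_sdiff
  omega

/-- The chosen elements of the symmetric difference. -/
lemma card_chosen (A B : Sub n m) :
    ((symmDiff A.1 B.1).filter fun x => below A.1 x % 2 = below B.1 x % 2).card =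
      (A.1 \ B.1).card := by
  have h1 : ((symmDiff A.1 B.1).filter fun x => below A.1 x % 2 = below B.1 x % 2) =
      (symmDiff A.1 B.1).filter fun x => Even (below (symmDiff A.1 B.1) x) := by
    apply Finset.filter_congr
    intro x _
    have := below_add A.1 B.1 x
    rw [Nat.even_iff]
    omega
  rw [h1, card_even_below]
  have h2 : (symmDiff A.1 B.1).card = (A.1 \ B.1).card + (B.1 \ A.1).card := by
    rw [symmDiff_def, Finset.sup_eq_union, Finset.card_union_of_disjoint]
    exact disjoint_sdiff_sdiff
  have h3 := sdiff_comm_card A B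
  omega

lemma below_zero (A : Finset (Fin n)) (x : Fin n) (hx : x.1 = 0) : below A x = 0 := by
  unfold below
  rw [Finset.card_eq_zero, Finset.filter_eq_empty_iff]
  intro y _ hy
  have : y.1 < x.1 := hy
  omega

lemma below_last (A : Finset (Fin n)) (x : Fin n) (hx : x.1 + 1 = n) :
    below A x + (if x ∈ A then 1 else 0) = A.card := by
  unfold below
  have h1 : (A.filter fun y => y < x) = A.erase x := by
    ext y
    rw [Finset.mem_filter, Finset.mem_erase]
    constructor
    · rintro ⟨h1, h2⟩
      exact ⟨ne_of_lt h2, h1⟩
    · rintro ⟨h1, h2⟩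
      refine ⟨h2, ?_⟩
      have h3 : y.1 ≠ x.1 := fun h => h1 (Fin.ext h)
      have h4 := y.2
      show y.1 < x.1
      omega
  rw [h1]
  split_ifs with h
  · rw [Finset.card_erase_of_mem h]
    have : 0 < A.card := Finset.card_pos.mpr ⟨x, h⟩
    omega
  · rw [Finset.erase_eq_of_notMem h]; simp

/-- The element of the ground set that belongs to a coordinate. -/
def elt (hn : 2 ≤ n) (i : Fin (2 * n - 3)) : Fin n := ⟨(i.1 + 1) / 2, by have := i.2; omega⟩

/-- The addressing. -/
def addr (hn : 2 ≤ n) (A : Sub n m) (i : Fin (2 * n - 3)) : Option Bool :=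
  if below A.1 (elt hn i) % 2 = i.1 % 2 then some (decide (elt hn i ∈ A.1)) else none

lemma opp_iff (hn : 2 ≤ n) (A B : Sub n m) (i : Fin (2 * n - 3)) :
    (∃ c : Bool, addr hn A i = some c ∧ addr hn B i = some (!c)) ↔
      elt hn i ∈ symmDiff A.1 B.1 ∧ below A.1 (elt hn i) % 2 = i.1 % 2 ∧
        below B.1 (elt hn i) % 2 = i.1 % 2 := by
  unfold addr
  rw [Finset.mem_symmDiff]
  constructor
  · rintro ⟨c, h1, h2⟩
    split_ifs at h1 h2 with h3 h4
    rw [Option.some.injEq] at h1 h2
    refine ⟨?_, h3, h4⟩
    subst h1
    by_cases hA : elt hn i ∈ A.1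
    · left
      refine ⟨hA, fun hB => ?_⟩
      simp [hA, hB] at h2
    · right
      refine ⟨?_, hA⟩
      by_contra hB
      simp [hA, hB] at h2
  · rintro ⟨h1, h2, h3⟩
    refine ⟨decide (elt hn i ∈ A.1), by rw [if_pos h2], ?_⟩
    rw [if_pos h3]
    rcases h1 with ⟨hA, hB⟩ | ⟨hB, hA⟩
    · simp [hA, hB]
    · simp [hA, hB]

/-- The addressing number of `J(n,m)` is at most `2 n - 3`. -/
theorem result (n m : ℕ) (hm : 2 ≤ m) (hmn : 2 * m ≤ n) :
    HasAddressing (johnson n m) (2 * n - 3) ∧ addressingNumber (johnson n m) ≤ 2 * n - 3 := by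
  have hn : 2 ≤ n := by omega
  have key : HasAddressing (johnson n m) (2 * n - 3) := by
    refine ⟨addr hn, fun A B => ?_⟩
    rw [dist_eq, ← card_chosen]
    unfold delta
    apply Finset.card_bij (fun (i : Fin (2 * n - 3)) _ => elt hn i)
    · intro i hi
      rw [Finset.mem_filter, opp_iff] at hi
      rw [Finset.mem_filter]
      exact ⟨hi.2.1, by rw [hi.2.2.1, hi.2.2.2]⟩
    · intro i hi j hj hij
      rw [Finset.mem_filter, opp_iff] at hi hj
      have h1 := hi.2.2.1
      have h2 := hj.2.2.1
      rw [hij] at h1
      have h3 : (i.1 + 1) / 2 = (j.1 + 1) / 2 := congrArg Fin.val hij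
      apply Fin.ext
      omega
    · intro x hx
      rw [Finset.mem_filter] at hx
      obtain ⟨hx1, hx2⟩ := hx
      have hlast : x.1 + 1 ≠ n := by
        intro h
        have hA := below_last A.1 x h
        have hB := below_last B.1 x h
        rw [A.2] at hA
        rw [B.2] at hB
        rw [Finset.mem_symmDiff] at hx1
        rcases hx1 with ⟨h1, h2⟩ | ⟨h1, h2⟩
        · rw [if_pos h1] at hA
          rw [if_neg h2] at hB
          omega
        · rw [if_neg h2] at hA
          rw [if_pos h1] at hB
          omega
      have hxn := x.2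
      have hb0 : x.1 = 0 → below A.1 x = 0 := below_zero A.1 x
      -- the coordinate
      have hlt : (if below A.1 x % 2 = 0 then 2 * x.1 else 2 * x.1 - 1) < 2 * n - 3 := by
        split_ifs <;> omega
      have helt : elt hn ⟨_, hlt⟩ = x := by
        apply Fin.ext
        show ((if below A.1 x % 2 = 0 then 2 * x.1 else 2 * x.1 - 1) + 1) / 2 = x.1
        split_ifs with h
        · omega
        · have : x.1 ≠ 0 := fun h0 => h (by rw [hb0 h0])
          omega
      have hpar : below A.1 x % 2 =
          (if below A.1 x % 2 = 0 then 2 * x.1 else 2 * x.1 - 1) % 2 := by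
        split_ifs with h
        · omega
        · have : x.1 ≠ 0 := fun h0 => h (by rw [hb0 h0])
          omega
      refine ⟨⟨_, hlt⟩, ?_, helt⟩
      rw [Finset.mem_filter, opp_iff, helt]
      refine ⟨Finset.mem_univ _, hx1, ?_, ?_⟩
      · exact hpar
      · rw [← hx2]; exact hpar
  exact ⟨key, Nat.sInf_le key⟩

end Pool.Agent.Results.MP_38fdd6_co.LinearUpper
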